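import Pool.Agent.R396.F.Fin
import Pool.Agent.R396.F.JobA
import Pool.Agent.R396.F.FC
import Pool.Agent.R396.F.VDS

set_option autoImplicit false

/-!
# Reflective lattices `2U + L(-1)` of signature (2, 22)

If `M = 2U + L(-1)` is reflective, `L` even positive definite of rank 20, then `L` is in the genus
of `2E_8 + D_4`.
-/

namespace Pool.Agent.Results.MP_f1d0b6_nt.GenusTwoE8D4

open Pool.Agent.Y813.Refl

theorem result (G : Matrix (Fin 20) (Fin 20) ℤ) (hsymm : G.IsSymm) (heven : ∀ i, Even (G i i))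
    (hpos : ∀ x : Fin 20 → ℝ, x ≠ 0 → 0 < form G x x)
    (Z₀ : Fin 4 ⊕ Fin 20 → ℂ) (hZ₀ : Z₀ ∈ quadric (gramM G))
    (hR : IsReflectiveLattice (gramM G) (connectedComponentIn (quadric (gramM G)) Z₀)) :
    SameGenus G gramEED := by
  have h : Pool.Agent.Y813.RL.PosSymm G := ⟨hsymm, hpos⟩
  have hfin := Pool.Agent.R396.F.final Pool.Agent.R396.F.jobA
    (Pool.Agent.R396.F.jobGrow Pool.Agent.R396.F.jobGB) Pool.Agent.R396.F.jobFC
    (Pool.Agent.R396.F.jobVDS Pool.Agent.R396.F.jobGB) h heven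
    (Pool.Agent.Y813.RL.reflective_component h hZ₀ hR)
  exact hfin

end Pool.Agent.Results.MP_f1d0b6_nt.GenusTwoE8D4
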